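import Mathlib

set_option autoImplicit false

/-!
# The polynomials `P_{01r}` of Sills and Zeilberger: convexity fails for `r = 8`

`P_{018}(1) = 0`, `P_{018}(2) = 2 ^ 8 * 8 ! > 0` and `P_{018}(3) = -308510720 / 9 < 0`. So `P_{018}`
is not convex, and it has a real zero between `2` and `3`. The values are computed from the
definition by truncated power series. (In general `P_{01r}(N) = (-4)^r r! [w^r] N! / [N]!_{1+w}`,
and for `N = 3` the poles of smallest modulus are `ω - 1` and `ω² - 1`, so the sign oscillates.)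
-/

open scoped Nat Polynomial
open Finset

namespace Pool.Agent.Results.MP_dbc085_nt.NotConvex

/-- The polynomial `s_j` with `s_j(N) = ∑_{i=1}^N i^j` (see `powerSum_eval`), by Faulhaber's
formula; `bernoulli'` are the Bernoulli numbers with `B_1 = 1/2`. -/
noncomputable def powerSum (j : ℕ) : ℚ[X] :=
  ∑ i ∈ range (j + 1),
    Polynomial.C (bernoulli' i * ((j + 1).choose i : ℚ) / ((j : ℚ) + 1)) * Polynomial.X ^ (j + 1 - i)

/-- The defining property of `s_j`. -/
theorem powerSum_eval (j N : ℕ) :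
    (powerSum j).eval (N : ℚ) = ∑ i ∈ Icc 1 N, (i : ℚ) ^ j := by
  have h := sum_Ico_pow N j
  have e : Finset.Ico 1 (N + 1) = Finset.Icc 1 N := by
    ext x; simp only [Finset.mem_Ico, Finset.mem_Icc]; omega
  rw [e] at h
  rw [h]
  unfold powerSum
  rw [Polynomial.eval_finsetSum]
  refine Finset.sum_congr rfl fun i _ => ?_
  rw [Polynomial.eval_mul, Polynomial.eval_C, Polynomial.eval_pow, Polynomial.eval_X]
  ring

/-- The exponent `∑_{j=1}^r (-1)^(j+1) B_j / (j j!) (s_j(x) - x) z^j`, a power series in `z` over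
`ℚ[x]`; `bernoulli` are the Bernoulli numbers with `B_1 = -1/2`. -/
noncomputable def expo (r : ℕ) : PowerSeries ℚ[X] :=
  ∑ j ∈ Icc 1 r, PowerSeries.monomial j
    (Polynomial.C ((-1) ^ (j + 1) * bernoulli j / ((j : ℚ) * (j ! : ℚ))) *
      (powerSum j - Polynomial.X))

/-- `P_{01r}`: the number `(-4)^r r!` times the coefficient of `z^r` in `e^z β(z)^(r+1) exp(expo)`,
where `β(z) = z / (e^z - 1)` is Mathlib's `bernoulliPowerSeries`. As `expo r` has no constant term,
only the terms `expo^m / m!` with `m ≤ r` of the exponential contribute to the coefficient. -/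
noncomputable def P01 (r : ℕ) : ℚ[X] :=
  Polynomial.C ((-4) ^ r * (r ! : ℚ)) *
    PowerSeries.coeff r (PowerSeries.exp ℚ[X] * bernoulliPowerSeries ℚ[X] ^ (r + 1) *
      ∑ m ∈ range (r + 1), PowerSeries.C (Polynomial.C (1 / (m ! : ℚ))) * expo r ^ m)

/-- `P` is convex: its second derivative is nonnegative on the real line. -/
def Convex (P : ℚ[X]) : Prop :=
  ∀ x : ℝ, 0 ≤ Polynomial.aeval x (Polynomial.derivative (Polynomial.derivative P))

/-- `P_{01r}` is alternating: `(-1)^k c_k > 0` for `1 ≤ k ≤ 2r`. -/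
def Alternating (r : ℕ) (P : ℚ[X]) : Prop :=
  ∀ k : ℕ, 1 ≤ k → k ≤ 2 * r → 0 < (-1) ^ k * P.coeff k

/-- the first nine coefficients of `f` are the entries of the list `l` -/
def Rep (f : PowerSeries ℚ) (l : List ℚ) : Prop :=
  ∀ n < 9, PowerSeries.coeff n f = l.getD n 0

theorem Rep.mul {f g : PowerSeries ℚ} {a b : List ℚ} (hf : Rep f a) (hg : Rep g b) (c : List ℚ)
    (h : ∀ n < 9, ∑ i ∈ range (n + 1), a.getD i 0 * b.getD (n - i) 0 = c.getD n 0) :
    Rep (f * g) c := by
  intro n hn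
  rw [PowerSeries.coeff_mul, Finset.Nat.sum_antidiagonal_eq_sum_range_succ_mk, ← h n hn]
  refine Finset.sum_congr rfl fun i hi => ?_
  rw [mem_range] at hi
  rw [hf i (by omega), hg (n - i) (by omega)]


theorem b3 : bernoulli 3 = 0 := bernoulli_eq_zero_of_odd (by decide) (by norm_num)
theorem b5 : bernoulli 5 = 0 := bernoulli_eq_zero_of_odd (by decide) (by norm_num)
theorem b7 : bernoulli 7 = 0 := bernoulli_eq_zero_of_odd (by decide) (by norm_num)
theorem b4' : bernoulli 4 = -1 / 30 := by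
  rw [bernoulli_eq_bernoulli'_of_ne_one (by norm_num), bernoulli'_four]
theorem b5' : bernoulli' 5 = 0 := bernoulli'_eq_zero_of_odd (by decide) (by norm_num)
theorem b7' : bernoulli' 7 = 0 := bernoulli'_eq_zero_of_odd (by decide) (by norm_num)
theorem b6' : bernoulli' 6 = 1 / 42 := by
  rw [bernoulli'_def]
  norm_num [sum_range_succ, Nat.choose, b5']
theorem b8' : bernoulli' 8 = -1 / 30 := by
  rw [bernoulli'_def]
  norm_num [sum_range_succ, Nat.choose, b5', b6', b7']
theorem b6 : bernoulli 6 = 1 / 42 := by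
  rw [bernoulli_eq_bernoulli'_of_ne_one (by norm_num), b6']
theorem b8 : bernoulli 8 = -1 / 30 := by
  rw [bernoulli_eq_bernoulli'_of_ne_one (by norm_num), b8']

def l_b1 : List ℚ := [1, (-1/2), (1/12), 0, (-1/720), 0, (1/30240), 0, (-1/1209600)]
def l_b2 : List ℚ := [1, (-1), (5/12), (-1/12), (1/240), (1/720), (-1/6048), (-1/30240), (1/172800)]
def l_b4 : List ℚ := [1, (-2), (11/6), (-1), (251/720), (-3/40), (221/30240), (11/15120), (-199/725760)]
def l_b8 : List ℚ := [1, (-4), (23/3), (-28/3), (967/120), (-469/90), (363/140), (-1), (1070017/3628800)]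
def l_b9 : List ℚ := [1, (-9/2), (39/4), (-27/2), (1069/80), (-801/80), (29531/5040), (-761/280), 1]
def l_ex : List ℚ := [1, 1, (1/2), (1/6), (1/24), (1/120), (1/720), (1/5040), (1/40320)]
def l_eb : List ℚ := [1, (-7/2), (23/4), (-35/6), (967/240), (-469/240), (363/560), (-1/8), 0]
def l_e2_1 : List ℚ := [0, (-1/2), (-1/8), 0, (1/192), 0, (-1/2880), 0, (17/645120)]
def l_e2_2 : List ℚ := [0, 0, (1/4), (1/8), (1/64), (-1/192), (-1/768), (1/2880), (7/61440)]
def l_e2_3 : List ℚ := [0, 0, 0, (-1/8), (-3/32), (-3/128), (1/512), (1/512), (-1/61440)]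
def l_e2_4 : List ℚ := [0, 0, 0, 0, (1/16), (1/16), (3/128), (1/768), (-7/4096)]
def l_e2_5 : List ℚ := [0, 0, 0, 0, 0, (-1/32), (-5/128), (-5/256), (-5/1536)]
def l_e2_6 : List ℚ := [0, 0, 0, 0, 0, 0, (1/64), (3/128), (15/1024)]
def l_e2_7 : List ℚ := [0, 0, 0, 0, 0, 0, 0, (-1/128), (-7/512)]
def l_e2_8 : List ℚ := [0, 0, 0, 0, 0, 0, 0, 0, (1/256)]
def l_g2 : List ℚ := [1, (-1/2), 0, (1/24), 0, (-1/240), 0, (17/40320), 0]
def l_e3_1 : List ℚ := [0, (-3/2), (-11/24), 0, (19/576), 0, (-113/25920), 0, (1363/1935360)]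
def l_e3_2 : List ℚ := [0, 0, (9/4), (11/8), (121/576), (-19/192), (-209/6912), (113/8640), (25303/4976640)]
def l_e3_3 : List ℚ := [0, 0, 0, (-27/8), (-99/32), (-121/128), (1747/13824), (209/1536), (-4777/552960)]
def l_e3_4 : List ℚ := [0, 0, 0, 0, (81/16), (99/16), (363/128), (305/2304), (-120791/331776)]
def l_e3_5 : List ℚ := [0, 0, 0, 0, 0, (-243/32), (-1485/128), (-1815/256), (-2045/1536)]
def l_e3_6 : List ℚ := [0, 0, 0, 0, 0, 0, (729/64), (2673/128), (16335/1024)]
def l_e3_7 : List ℚ := [0, 0, 0, 0, 0, 0, 0, (-2187/128), (-18711/512)]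
def l_e3_8 : List ℚ := [0, 0, 0, 0, 0, 0, 0, 0, (6561/256)]
def l_g3 : List ℚ := [1, (-3/2), (2/3), (1/8), (-1/6), (-1/80), (7/180), (17/13440), (-809/90720)]

theorem rep_beta : Rep (bernoulliPowerSeries ℚ) l_b1 := by
  intro n hn
  rw [bernoulliPowerSeries, PowerSeries.coeff_mk]
  interval_cases n <;>
    norm_num [l_b1, bernoulli_zero, bernoulli_one, bernoulli_two, b3, b4', b5, b6, b7, b8,
      Nat.factorial]

theorem rep_exp : Rep (PowerSeries.exp ℚ) l_ex := by
  intro n hn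
  rw [PowerSeries.coeff_exp]
  interval_cases n <;> norm_num [l_ex, Nat.factorial]

theorem rep_b2 : Rep (bernoulliPowerSeries ℚ ^ 2) l_b2 := by
  rw [pow_two]; exact rep_beta.mul rep_beta _ (by decide +kernel)
theorem rep_b4 : Rep (bernoulliPowerSeries ℚ ^ 4) l_b4 := by
  rw [show 4 = 2 + 2 from rfl, pow_add]; exact rep_b2.mul rep_b2 _ (by decide +kernel)
theorem rep_b8 : Rep (bernoulliPowerSeries ℚ ^ 8) l_b8 := by
  rw [show 8 = 4 + 4 from rfl, pow_add]; exact rep_b4.mul rep_b4 _ (by decide +kernel)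
theorem rep_b9 : Rep (bernoulliPowerSeries ℚ ^ 9) l_b9 := by
  rw [pow_succ]; exact rep_b8.mul rep_beta _ (by decide +kernel)
theorem rep_eb : Rep (PowerSeries.exp ℚ * bernoulliPowerSeries ℚ ^ 9) l_eb :=
  rep_exp.mul rep_b9 _ (by decide +kernel)

/-- the exponent at `x = N` -/
noncomputable def expoN (N : ℕ) : PowerSeries ℚ :=
  ∑ j ∈ Icc 1 8, PowerSeries.monomial j
    ((-1) ^ (j + 1) * bernoulli j / ((j : ℚ) * (j ! : ℚ)) * ((∑ i ∈ Icc 1 N, (i : ℚ) ^ j) - N))

theorem map_expo (N : ℕ) :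
    PowerSeries.map (Polynomial.evalRingHom (N : ℚ)) (expo 8) = expoN N := by
  unfold expo expoN
  rw [map_sum]
  refine Finset.sum_congr rfl fun j _ => ?_
  ext n
  rw [PowerSeries.coeff_map, PowerSeries.coeff_monomial, PowerSeries.coeff_monomial]
  split_ifs with h
  · rw [Polynomial.coe_evalRingHom, Polynomial.eval_mul, Polynomial.eval_C, Polynomial.eval_sub,
      Polynomial.eval_X, powerSum_eval]
  · rw [map_zero]

theorem eval_P01 (N : ℕ) : (P01 8).eval (N : ℚ) = (-4) ^ 8 * (8 ! : ℚ) *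
    PowerSeries.coeff 8 (PowerSeries.exp ℚ * bernoulliPowerSeries ℚ ^ 9 *
      ∑ m ∈ range 9, PowerSeries.C (1 / (m ! : ℚ)) * expoN N ^ m) := by
  have hb : PowerSeries.map (Polynomial.evalRingHom (N : ℚ)) (bernoulliPowerSeries ℚ[X]) =
      bernoulliPowerSeries ℚ := by
    ext n
    rw [PowerSeries.coeff_map, bernoulliPowerSeries, bernoulliPowerSeries, PowerSeries.coeff_mk,
      PowerSeries.coeff_mk, Polynomial.coe_evalRingHom]
    simp
  unfold P01
  rw [Polynomial.eval_mul, Polynomial.eval_C, ← Polynomial.coe_evalRingHom,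
    ← PowerSeries.coeff_map, RingHom.map_mul (PowerSeries.map _),
    RingHom.map_mul (PowerSeries.map _), RingHom.map_pow (PowerSeries.map _), hb,
    PowerSeries.map_exp, map_sum]
  congr 3
  refine Finset.sum_congr rfl fun m _ => ?_
  rw [map_mul, map_pow, map_expo, PowerSeries.map_C]
  simp

theorem rep_expo (N : ℕ) (l : List ℚ)
    (h : ∀ n < 9, (if n = 0 then 0 else (-1) ^ (n + 1) * (l_b1.getD n 0 * (n ! : ℚ)) /
      ((n : ℚ) * (n ! : ℚ)) * ((∑ i ∈ Icc 1 N, (i : ℚ) ^ n) - N)) = l.getD n 0) :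
    Rep (expoN N) l := by
  intro n hn
  rw [← h n hn]
  unfold expoN
  rw [map_sum]
  simp only [PowerSeries.coeff_monomial]
  have hb : bernoulli n = l_b1.getD n 0 * (n ! : ℚ) := by
    have h1 := rep_beta n hn
    rw [bernoulliPowerSeries, PowerSeries.coeff_mk] at h1
    rw [← h1]
    have : (n ! : ℚ) ≠ 0 := by exact_mod_cast Nat.factorial_ne_zero n
    simp only [eq_ratCast, Rat.cast_id]
    field_simp
  split_ifs with h0
  · subst h0
    apply Finset.sum_eq_zero
    intro j hj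
    rw [mem_Icc] at hj
    rw [if_neg (by omega)]
  · rw [Finset.sum_eq_single n, if_pos rfl, hb]
    · intro j _ hj
      rw [if_neg (by omega)]
    · intro hc
      exact absurd (mem_Icc.2 ⟨by omega, by omega⟩) hc


theorem rep_e2_1 : Rep (expoN 2) l_e2_1 := rep_expo 2 _ (by decide +kernel)
theorem rep_e2_2 : Rep (expoN 2 ^ 2) l_e2_2 := by
  rw [pow_two]; exact rep_e2_1.mul rep_e2_1 _ (by decide +kernel)
theorem rep_e2_3 : Rep (expoN 2 ^ 3) l_e2_3 := by
  rw [pow_succ]; exact rep_e2_2.mul rep_e2_1 _ (by decide +kernel)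
theorem rep_e2_4 : Rep (expoN 2 ^ 4) l_e2_4 := by
  rw [pow_succ]; exact rep_e2_3.mul rep_e2_1 _ (by decide +kernel)
theorem rep_e2_5 : Rep (expoN 2 ^ 5) l_e2_5 := by
  rw [pow_succ]; exact rep_e2_4.mul rep_e2_1 _ (by decide +kernel)
theorem rep_e2_6 : Rep (expoN 2 ^ 6) l_e2_6 := by
  rw [pow_succ]; exact rep_e2_5.mul rep_e2_1 _ (by decide +kernel)
theorem rep_e2_7 : Rep (expoN 2 ^ 7) l_e2_7 := by
  rw [pow_succ]; exact rep_e2_6.mul rep_e2_1 _ (by decide +kernel)
theorem rep_e2_8 : Rep (expoN 2 ^ 8) l_e2_8 := by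
  rw [pow_succ]; exact rep_e2_7.mul rep_e2_1 _ (by decide +kernel)

theorem rep_g2 : Rep (∑ m ∈ range 9, PowerSeries.C (1 / (m ! : ℚ)) * expoN 2 ^ m) l_g2 := by
  intro n hn
  rw [map_sum]
  simp only [PowerSeries.coeff_C_mul]
  rw [Finset.sum_range_succ, Finset.sum_range_succ, Finset.sum_range_succ, Finset.sum_range_succ,
    Finset.sum_range_succ, Finset.sum_range_succ, Finset.sum_range_succ, Finset.sum_range_succ,
    Finset.sum_range_succ, Finset.sum_range_zero, pow_zero, pow_one, PowerSeries.coeff_one,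
    rep_e2_1 n hn, rep_e2_2 n hn, rep_e2_3 n hn, rep_e2_4 n hn, rep_e2_5 n hn,
    rep_e2_6 n hn, rep_e2_7 n hn, rep_e2_8 n hn]
  revert n
  decide +kernel

theorem rep_e3_1 : Rep (expoN 3) l_e3_1 := rep_expo 3 _ (by decide +kernel)
theorem rep_e3_2 : Rep (expoN 3 ^ 2) l_e3_2 := by
  rw [pow_two]; exact rep_e3_1.mul rep_e3_1 _ (by decide +kernel)
theorem rep_e3_3 : Rep (expoN 3 ^ 3) l_e3_3 := by
  rw [pow_succ]; exact rep_e3_2.mul rep_e3_1 _ (by decide +kernel)
theorem rep_e3_4 : Rep (expoN 3 ^ 4) l_e3_4 := by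
  rw [pow_succ]; exact rep_e3_3.mul rep_e3_1 _ (by decide +kernel)
theorem rep_e3_5 : Rep (expoN 3 ^ 5) l_e3_5 := by
  rw [pow_succ]; exact rep_e3_4.mul rep_e3_1 _ (by decide +kernel)
theorem rep_e3_6 : Rep (expoN 3 ^ 6) l_e3_6 := by
  rw [pow_succ]; exact rep_e3_5.mul rep_e3_1 _ (by decide +kernel)
theorem rep_e3_7 : Rep (expoN 3 ^ 7) l_e3_7 := by
  rw [pow_succ]; exact rep_e3_6.mul rep_e3_1 _ (by decide +kernel)
theorem rep_e3_8 : Rep (expoN 3 ^ 8) l_e3_8 := by
  rw [pow_succ]; exact rep_e3_7.mul rep_e3_1 _ (by decide +kernel)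

theorem rep_g3 : Rep (∑ m ∈ range 9, PowerSeries.C (1 / (m ! : ℚ)) * expoN 3 ^ m) l_g3 := by
  intro n hn
  rw [map_sum]
  simp only [PowerSeries.coeff_C_mul]
  rw [Finset.sum_range_succ, Finset.sum_range_succ, Finset.sum_range_succ, Finset.sum_range_succ,
    Finset.sum_range_succ, Finset.sum_range_succ, Finset.sum_range_succ, Finset.sum_range_succ,
    Finset.sum_range_succ, Finset.sum_range_zero, pow_zero, pow_one, PowerSeries.coeff_one,
    rep_e3_1 n hn, rep_e3_2 n hn, rep_e3_3 n hn, rep_e3_4 n hn, rep_e3_5 n hn,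
    rep_e3_6 n hn, rep_e3_7 n hn, rep_e3_8 n hn]
  revert n
  decide +kernel

theorem expoN_one : expoN 1 = 0 := by
  unfold expoN
  apply Finset.sum_eq_zero
  intro j _
  simp

theorem val_one : (P01 8).eval 1 = 0 := by
  have h := eval_P01 1
  have hs : ∑ m ∈ range 9, PowerSeries.C (1 / (m ! : ℚ)) * (0 : PowerSeries ℚ) ^ m = 1 := by
    rw [Finset.sum_eq_single 0]
    · simp
    · intro m _ hm
      rw [zero_pow hm, mul_zero]
    · intro hc
      exact absurd (mem_range.2 (by norm_num)) hc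
  rw [Nat.cast_one, expoN_one, hs, mul_one, rep_eb 8 (by norm_num)] at h
  rw [h]
  norm_num [l_eb]

theorem coeff_final {g : PowerSeries ℚ} {b : List ℚ} (hg : Rep g b) :
    PowerSeries.coeff 8 (PowerSeries.exp ℚ * bernoulliPowerSeries ℚ ^ 9 * g) =
      ∑ i ∈ range 9, l_eb.getD i 0 * b.getD (8 - i) 0 := by
  rw [PowerSeries.coeff_mul, Finset.Nat.sum_antidiagonal_eq_sum_range_succ_mk]
  refine Finset.sum_congr rfl fun i hi => ?_
  rw [mem_range] at hi
  rw [rep_eb i (by omega), hg (8 - i) (by omega)]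

theorem val_two : (P01 8).eval 2 = 10321920 := by
  have h := eval_P01 2
  rw [Nat.cast_ofNat] at h
  have h2 : ∑ i ∈ range 9, l_eb.getD i 0 * l_g2.getD (8 - i) 0 = 1 / 256 := by decide +kernel
  rw [h, coeff_final rep_g2, h2]
  norm_num [Nat.factorial]

theorem val_three : (P01 8).eval 3 = -308510720 / 9 := by
  have h := eval_P01 3
  rw [Nat.cast_ofNat] at h
  have h2 : ∑ i ∈ range 9, l_eb.getD i 0 * l_g3.getD (8 - i) 0 = -269 / 20736 := by
    decide +kernel
  rw [h, coeff_final rep_g3, h2]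
  norm_num [Nat.factorial]

theorem aeval_cast (P : ℚ[X]) (q : ℚ) : Polynomial.aeval (q : ℝ) P = ((P.eval q : ℚ) : ℝ) := by
  have h := Polynomial.aeval_algebraMap_apply ℝ q P
  rw [Polynomial.coe_aeval_eq_eval] at h
  simpa using h

/-- **Q1 is false at `r = 8`.** The polynomial `P_{018}` is not convex, so it is not true that for
every `r ≥ 1` the polynomial `P_{01r}` is alternating and convex; also `P_{018}` has a real zero
strictly between `2` and `3`. -/
theorem result :
    (¬ ∀ r : ℕ, 1 ≤ r → Alternating r (P01 r) ∧ Convex (P01 r)) ∧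
    ¬ Convex (P01 8) ∧ ∃ x : ℝ, 2 < x ∧ x < 3 ∧ Polynomial.aeval x (P01 8) = 0 := by
  have e1 : Polynomial.aeval (1 : ℝ) (P01 8) = 0 := by
    have := aeval_cast (P01 8) 1
    rw [val_one] at this
    simpa using this
  have e2 : Polynomial.aeval (2 : ℝ) (P01 8) = 10321920 := by
    have := aeval_cast (P01 8) 2
    rw [val_two] at this
    simpa using this
  have e3 : Polynomial.aeval (3 : ℝ) (P01 8) = -308510720 / 9 := by
    have := aeval_cast (P01 8) 3
    rw [val_three] at this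
    simpa using this
  have hconv : ¬ Convex (P01 8) := by
    intro hc
    have hd : ∀ Q : ℚ[X], deriv (fun x : ℝ => Polynomial.aeval x Q) =
        fun x : ℝ => Polynomial.aeval x (Polynomial.derivative Q) := by
      intro Q
      ext x
      exact Polynomial.deriv_aeval Q
    have hdiff : ∀ Q : ℚ[X], Differentiable ℝ (fun x : ℝ => Polynomial.aeval x Q) :=
      fun Q => Polynomial.differentiable_aeval Q
    have h1 : ConvexOn ℝ Set.univ (fun x : ℝ => Polynomial.aeval x (P01 8)) := by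
      apply convexOn_univ_of_deriv2_nonneg (hdiff _)
      · rw [hd]; exact hdiff _
      · intro x
        rw [Function.iterate_succ_apply, Function.iterate_one, hd, hd]
        exact hc x
    have h2 := h1.2 (Set.mem_univ (1 : ℝ)) (Set.mem_univ (3 : ℝ))
      (show (0 : ℝ) ≤ 1 / 2 by norm_num) (show (0 : ℝ) ≤ 1 / 2 by norm_num) (by norm_num)
    simp only [smul_eq_mul] at h2
    norm_num at h2
    rw [e1, e2, e3] at h2
    norm_num at h2
  refine ⟨fun h => hconv (h 8 (by norm_num)).2, hconv, ?_⟩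
  have hcont : ContinuousOn (fun x : ℝ => Polynomial.aeval x (P01 8)) (Set.Icc 2 3) :=
    (Polynomial.continuous_aeval _).continuousOn
  have h4 := intermediate_value_Ioo' (by norm_num : (2 : ℝ) ≤ 3) hcont
  obtain ⟨x, hx, hx2⟩ := h4 (show (0 : ℝ) ∈ Set.Ioo _ _ by
    simp only [e2, e3]
    constructor <;> norm_num)
  exact ⟨x, hx.1, hx.2, hx2⟩

end Pool.Agent.Results.MP_dbc085_nt.NotConvex
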